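import Pool.Agent.W580.SH.Final
import Pool.Agent.W212.SH.Low
import Pool.Agent.Y424.HS.Cone

/-! # MP_c07b9b_co, Q1: the shifted Heller constant is asymptotic to `m²` -/

set_option autoImplicit false

namespace Pool.Agent.Results.MP_c07b9b_co.Growth

open Pool.Agent.W580.SH Pool.Agent.Y424.HS Filter Topology Asymptotics

theorem size_le {m n : ℕ} (h : n ∈ ShiftedSizes m) : n ≤ shiftedHeller m :=
  le_csSup (bdd_shifted m) h

/-- the example with one row: `1/2` and `-1/2` -/
theorem two_mem : 2 ∈ ShiftedSizes 1 := by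
  refine ⟨fun _ => 1 / 2, Matrix.of fun _ j => if j = 0 then 0 else -1, fun _ => by norm_num, ?_,
    ?_, ?_, ?_⟩
  · intro h
    have := congrFun h 0
    simp at this
  · intro i j
    rw [Matrix.of_apply]
    split_ifs
    · right; left; rfl
    · left; rfl
  · intro j j' h
    have := congrFun h 0
    simp only [Matrix.transpose_apply, Matrix.of_apply] at this
    fin_cases j <;> fin_cases j' <;> simp_all
  · intro k r c
    rcases k with _ | k
    · simp
    rcases k with _ | k
    · rw [Matrix.det_fin_one, Matrix.submatrix_apply, Matrix.of_apply, Matrix.of_apply]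
      split_ifs <;> rw [abs_le] <;> constructor <;> norm_num
    · have : ((Matrix.of fun (i : Fin 1) (j : Fin 2) => (1 / 2 : ℝ) +
          (Matrix.of fun (_ : Fin 1) (j : Fin 2) => if j = 0 then (0 : ℝ) else -1) i j).submatrix
          r c).det = 0 := by
        apply Matrix.det_zero_of_row_eq (i := 0) (j := 1) (by simp)
        funext b
        rw [Matrix.submatrix_apply, Matrix.submatrix_apply, Subsingleton.elim (r 0) (r 1)]
      rw [this]; simp

theorem low (m : ℕ) (hm : 1 ≤ m) : m ^ 2 + 2 ≤ shiftedHeller m + m := by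
  obtain ⟨d, rfl⟩ := Nat.exists_eq_add_of_le' hm
  rcases Nat.eq_zero_or_pos d with h0 | h0
  · subst h0
    have := size_le two_mem
    norm_num
    omega
  · have := size_le (lower d h0)
    nlinarith

/-- **Answer to Q1.** For every `m ≥ 1` the maximum `h_s(m)` exists and
`m² - m + 2 ≤ h_s(m) ≤ m² + m`. Hence `h_s(m) ∼ m²`; in particular `h_s(m) = Θ(m²)`, and more
precisely `h_s(m) = m² + O(m)`. -/
theorem result :
    (∀ m : ℕ, 1 ≤ m → IsGreatest (ShiftedSizes m) (shiftedHeller m) ∧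
      m ^ 2 + 2 ≤ shiftedHeller m + m ∧ shiftedHeller m ≤ m ^ 2 + m) ∧
    IsEquivalent atTop (fun m : ℕ => (shiftedHeller m : ℝ)) (fun m : ℕ => (m : ℝ) ^ 2) ∧
    (fun m : ℕ => (shiftedHeller m : ℝ)) =Θ[atTop] (fun m : ℕ => (m : ℝ) ^ 2) ∧
    (fun m : ℕ => (shiftedHeller m : ℝ) - (m : ℝ) ^ 2) =O[atTop] (fun m : ℕ => (m : ℝ)) := by
  have hA := all Pool.Agent.W212.SH.main
  have hO : (fun m : ℕ => (shiftedHeller m : ℝ) - (m : ℝ) ^ 2) =O[atTop]
      (fun m : ℕ => (m : ℝ)) := by
    refine IsBigO.of_bound 1 ?_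
    filter_upwards [eventually_ge_atTop 1] with m hm
    have h1 : ((m : ℝ) ^ 2 + 2) ≤ shiftedHeller m + m := by exact_mod_cast low m hm
    have h2 : (shiftedHeller m : ℝ) ≤ (m : ℝ) ^ 2 + m := by exact_mod_cast (hA m hm).2.2.2.1
    rw [Real.norm_eq_abs, Real.norm_eq_abs, one_mul, abs_of_nonneg (a := (m : ℝ)) (Nat.cast_nonneg m), abs_le]
    constructor <;> linarith
  have ho : (fun m : ℕ => (m : ℝ)) =o[atTop] (fun m : ℕ => (m : ℝ) ^ 2) := by
    have := (isLittleO_pow_pow_atTop_of_lt (𝕜 := ℝ) (show 1 < 2 by norm_num)).comp_tendsto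
      (tendsto_natCast_atTop_atTop (R := ℝ))
    simpa [Function.comp_def] using this
  have hE : IsEquivalent atTop (fun m : ℕ => (shiftedHeller m : ℝ))
      (fun m : ℕ => (m : ℝ) ^ 2) := hO.trans_isLittleO ho
  exact ⟨fun m hm => ⟨(hA m hm).1, low m hm, (hA m hm).2.2.2.1⟩, hE, hE.isTheta, hO⟩

end Pool.Agent.Results.MP_c07b9b_co.Growth
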